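import Mathlib
import Pool.Agent.Q153.Cube.Main

/-!
# The largest `3`-cube-free subsets of `ℤ/2^n`

For every `n ≥ 3` the largest `3`-cube-free subset of `ℤ/2^n` has exactly `(5/8) 2^n` elements.

Proof of the upper bound (induction on `n`). Let `α` be the density of `A` in the odd residues and `β` its density
in the even residues; by induction `β ≤ 5/8`, so one may assume `α > 5/8`. Let `α_i` be the density of `A` in the
`i`-th layer (`α = α_1`).
* `α > 3/4`: the multiples of `4` in `A` form a sum-free set, which together with `2 α_1 + α_2 ≤ 2` gives the bound.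
* `2/3 < α ≤ 3/4`: no even `b` has `b, 2b ∈ A`, hence `α_i + α_(i+1) ≤ 1` for `i ≥ 2`, and the bound follows.
* `5/8 < α ≤ 2/3`: every subset of `{1, ..., 18}` without a three-dimensional projective cube has weight at most
  `199` for certain weights (a branch and bound certificate checked by the kernel); applied to the sets
  `{j : j x ∈ A}`, `x` odd, this gives `145 α_1 + 108 α_2 + 46 α_3 + 18 α_4 + 7 α_5 ≤ 199`, and the bound follows
  with the induction hypothesis for the sets `{x : 2^i x ∈ A}`.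
-/

set_option autoImplicit false

namespace Pool.Agent.Results.MP_18fe88_co.FiveEighths

/-- The projective `d`-cube generated by the multiset `S 0, ..., S (d - 1)`: all sums over nonempty index sets. -/
def projectiveCube {n d : ℕ} (S : Fin d → ZMod (2 ^ n)) : Set (ZMod (2 ^ n)) :=
  {x | ∃ I : Finset (Fin d), I.Nonempty ∧ ∑ i ∈ I, S i = x}

/-- `A` contains no projective `d`-cube. -/
def CubeFree {n : ℕ} (d : ℕ) (A : Set (ZMod (2 ^ n))) : Prop :=
  ∀ S : Fin d → ZMod (2 ^ n), ¬ projectiveCube S ⊆ A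

open Pool.Agent.Q153.Cube

/-- the seven sums -/
lemma cube_of {n : ℕ} {A : Set (ZMod (2 ^ n))} (S : Fin 3 → ZMod (2 ^ n)) (h1 : S 0 ∈ A) (h2 : S 1 ∈ A)
    (h3 : S 2 ∈ A) (h4 : S 0 + S 1 ∈ A) (h5 : S 0 + S 2 ∈ A) (h6 : S 1 + S 2 ∈ A)
    (h7 : S 0 + S 1 + S 2 ∈ A) : projectiveCube S ⊆ A := by
  rintro x ⟨I, hI, rfl⟩
  have key : ∀ I : Finset (Fin 3), I.Nonempty → I = {0} ∨ I = {1} ∨ I = {2} ∨ I = {0, 1} ∨ I = {0, 2} ∨
      I = {1, 2} ∨ I = {0, 1, 2} := by decide
  have e4 : ∑ i ∈ ({0, 1} : Finset (Fin 3)), S i = S 0 + S 1 := Finset.sum_pair (by decide)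
  have e5 : ∑ i ∈ ({0, 2} : Finset (Fin 3)), S i = S 0 + S 2 := Finset.sum_pair (by decide)
  have e6 : ∑ i ∈ ({1, 2} : Finset (Fin 3)), S i = S 1 + S 2 := Finset.sum_pair (by decide)
  have e7 : ∑ i ∈ ({0, 1, 2} : Finset (Fin 3)), S i = S 0 + S 1 + S 2 := by
    rw [Finset.sum_insert (by decide), Finset.sum_pair (by decide)]
    ring
  rcases key I hI with rfl | rfl | rfl | rfl | rfl | rfl | rfl
  · simpa using h1
  · simpa using h2
  · simpa using h3
  · rw [e4]; exact h4
  · rw [e5]; exact h5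
  · rw [e6]; exact h6
  · rw [e7]; exact h7

lemma of_cube {n : ℕ} {A : Set (ZMod (2 ^ n))} (S : Fin 3 → ZMod (2 ^ n)) (h : projectiveCube S ⊆ A) :
    S 0 ∈ A ∧ S 1 ∈ A ∧ S 2 ∈ A ∧ S 0 + S 1 ∈ A ∧ S 0 + S 2 ∈ A ∧ S 1 + S 2 ∈ A ∧ S 0 + S 1 + S 2 ∈ A := by
  refine ⟨h ⟨{0}, by simp, by simp⟩, h ⟨{1}, by simp, by simp⟩, h ⟨{2}, by simp, by simp⟩,
    h ⟨{0, 1}, by simp, Finset.sum_pair (by decide)⟩, h ⟨{0, 2}, by simp, Finset.sum_pair (by decide)⟩,
    h ⟨{1, 2}, by simp, Finset.sum_pair (by decide)⟩, h ⟨{0, 1, 2}, by simp, ?_⟩⟩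
  rw [Finset.sum_insert (by decide), Finset.sum_pair (by decide)]
  ring

lemma card_eq_cnt {n : ℕ} (A : Finset (ZMod (2 ^ n))) :
    A.card = cnt (2 ^ n) (fun x => (x : ZMod (2 ^ n)) ∈ A) := by
  classical
  have : NeZero (2 ^ n) := ⟨by positivity⟩
  unfold cnt
  rw [sum_zmod]
  rw [Finset.card_eq_sum_ones, ← Finset.sum_filter_add_sum_filter_not Finset.univ (· ∈ A)]
  have h1 : ∑ z ∈ Finset.univ.filter (fun z : ZMod (2 ^ n) => z ∉ A),
      ind (((z.val : ℕ) : ZMod (2 ^ n)) ∈ A) = 0 := by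
    apply Finset.sum_eq_zero
    intro z hz
    apply ind_false
    rw [ZMod.natCast_zmod_val]
    exact (Finset.mem_filter.1 hz).2
  rw [h1, add_zero]
  have h2 : Finset.univ.filter (fun z : ZMod (2 ^ n) => z ∈ A) = A := by
    ext z
    simp
  rw [h2]
  apply Finset.sum_congr rfl
  intro z hz
  rw [ind_true]
  simp only
  rw [ZMod.natCast_zmod_val]
  exact hz

/-- The upper bound. -/
theorem upper {n : ℕ} (A : Finset (ZMod (2 ^ n))) (hA : CubeFree 3 (A : Set (ZMod (2 ^ n)))) :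
    8 * A.card ≤ 5 * 2 ^ n := by
  rw [card_eq_cnt A]
  apply main_bound
  · intro x
    simp only
    have : (((x + 2 ^ n : ℕ)) : ZMod (2 ^ n)) = (x : ZMod (2 ^ n)) := by
      rw [Nat.cast_add]
      have := ZMod.natCast_self (2 ^ n)
      rw [this, add_zero]
    rw [this]
  · rintro a b c ⟨h1, h2, h3, h4, h5, h6, h7⟩
    apply hA ![(a : ZMod (2 ^ n)), (b : ZMod (2 ^ n)), (c : ZMod (2 ^ n))]
    apply cube_of
    · exact h1
    · exact h2
    · exact h3
    · simpa using h4
    · simpa using h5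
    · simpa using h6
    · simpa using h7

/-- The extremal set mod `8`. -/
def good (z : ZMod 8) : Prop := z = 1 ∨ z = 3 ∨ z = 4 ∨ z = 5 ∨ z = 7

instance : DecidablePred good := fun z => by unfold good; infer_instance

lemma cube_mod8 : ∀ a b c : ZMod 8, ¬ (good a ∧ good b ∧ good c ∧ good (a + b) ∧ good (a + c) ∧
    good (b + c) ∧ good (a + b + c)) := by decide

/-- `L₁ ∪ L₃` -/
lemma lower (n : ℕ) (hn : 3 ≤ n) : ∃ A : Finset (ZMod (2 ^ n)), CubeFree 3 (A : Set (ZMod (2 ^ n))) ∧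
    A.card = 5 * 2 ^ (n - 3) := by
  classical
  obtain ⟨m, rfl⟩ : ∃ m, n = 3 + m := ⟨n - 3, by omega⟩
  have : NeZero (2 ^ (3 + m)) := ⟨by positivity⟩
  have hd : 8 ∣ 2 ^ (3 + m) := ⟨2 ^ m, by rw [pow_add]; norm_num⟩
  let f : ZMod (2 ^ (3 + m)) →+* ZMod 8 := ZMod.castHom hd (ZMod 8)
  refine ⟨Finset.univ.filter (fun z => good (f z)), ?_, ?_⟩
  · intro S hS
    obtain ⟨h1, h2, h3, h4, h5, h6, h7⟩ := of_cube S hS
    simp only [Finset.coe_filter, Finset.mem_univ, true_and, Set.mem_ofPred_eq, map_add] at h1 h2 h3 h4 h5 h6 h7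
    exact cube_mod8 _ _ _ ⟨h1, h2, h3, h4, h5, h6, h7⟩
  · rw [card_eq_cnt]
    have hP : (fun x : ℕ => (x : ZMod (2 ^ (3 + m))) ∈ Finset.univ.filter (fun z => good (f z))) =
        fun x : ℕ => good ((x : ℕ) : ZMod 8) := by
      funext x
      rw [Finset.mem_filter]
      simp [f]
    rw [hP]
    have hper : Per 8 (fun x : ℕ => ind (good ((x : ℕ) : ZMod 8))) := by
      intro x
      simp only
      have : ((x + 8 : ℕ) : ZMod 8) = (x : ZMod 8) := by
        rw [Nat.cast_add]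
        have := ZMod.natCast_self 8
        rw [this, add_zero]
      rw [this]
    have key : ∀ j : ℕ, cnt (2 ^ (3 + j)) (fun x : ℕ => good ((x : ℕ) : ZMod 8)) = 5 * 2 ^ j := by
      intro j
      induction j with
      | zero =>
        unfold cnt
        have e : 2 ^ (3 + 0) = 8 := by norm_num
        rw [e]
        simp only [Finset.sum_range_succ, Finset.sum_range_zero]
        have t1 : good ((1 : ℕ) : ZMod 8) := by decide
        have t3 : good ((3 : ℕ) : ZMod 8) := by decide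
        have t4 : good ((4 : ℕ) : ZMod 8) := by decide
        have t5 : good ((5 : ℕ) : ZMod 8) := by decide
        have t7 : good ((7 : ℕ) : ZMod 8) := by decide
        have t0 : ¬ good ((0 : ℕ) : ZMod 8) := by decide
        have t2 : ¬ good ((2 : ℕ) : ZMod 8) := by decide
        have t6 : ¬ good ((6 : ℕ) : ZMod 8) := by decide
        rw [ind_true t1, ind_true t3, ind_true t4, ind_true t5, ind_true t7, ind_false t0, ind_false t2,
          ind_false t6]
        norm_num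
      | succ j ih =>
        unfold cnt at ih ⊢
        have hper' : Per (2 ^ (3 + j)) (fun x : ℕ => ind (good ((x : ℕ) : ZMod 8))) := by
          intro x
          have h1 := hper.mul x (2 ^ j)
          have h2 : 2 ^ j * 8 = 2 ^ (3 + j) := by rw [pow_add]; ring
          rw [h2] at h1
          exact h1
        have e : 2 ^ (3 + (j + 1)) = 2 * 2 ^ (3 + j) := by rw [← add_assoc, pow_succ]; ring
        rw [e, sum_double hper', ih]
        ring
    rw [key m, Nat.add_sub_cancel_left]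

/-- **Full answer to Q1.** For every `n ≥ 3` the largest `3`-cube-free subset of `ℤ/2^n` has exactly
`(5/8) 2^n = 5 · 2^(n-3)` elements. -/
theorem result : ∀ n : ℕ, 3 ≤ n →
    IsGreatest {m : ℕ | ∃ A : Finset (ZMod (2 ^ n)), CubeFree 3 (A : Set (ZMod (2 ^ n))) ∧ A.card = m}
      (5 * 2 ^ (n - 3)) := by
  intro n hn
  refine ⟨lower n hn, ?_⟩
  rintro m ⟨A, hA, rfl⟩
  have h1 := upper A hA
  have h2 : 2 ^ n = 8 * 2 ^ (n - 3) := by
    obtain ⟨j, rfl⟩ : ∃ j, n = 3 + j := ⟨n - 3, by omega⟩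
    rw [Nat.add_sub_cancel_left, pow_add]
    norm_num
  omega

end Pool.Agent.Results.MP_18fe88_co.FiveEighths
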